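import Mathlib
import Pool.Agent.Y157.PC.Stm

/-!
# The Gauss valuations are unramified outside a finite set of primes
-/

set_option autoImplicit false
set_option linter.all false

open Polynomial FF

namespace Pool.Agent.Y166.PC

open Pool.Agent.Y157.PS Pool.Agent.Y157.PC

/-- evaluation of integral polynomials commutes with homomorphisms -/
lemma hom_aeval {A B : Type} [CommRing A] [CommRing B] (f : A →+* B) (x : A) (g : ℤ[X]) :
    f (aeval x g) = aeval (f x) g := by
  rw [aeval_def, aeval_def, hom_eval₂]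
  congr 1
  exact RingHom.ext_int _ _

/-- values of integral polynomials -/
lemma aeval_mem {p : ℕ} (hp : p.Prime) {N : Type} [Field N] {X₀ : N} {O : ValuationSubring N}
    (h : GaussP p X₀ O) (g : ℤ[X]) : aeval X₀ g ∈ O := by
  have hX : X₀ ∈ O := by
    have h1 := h.2 X ⟨1, by
      rw [coeff_X_one]
      intro h2
      exact hp.one_lt.ne' (by exact_mod_cast Int.eq_one_of_dvd_one (by positivity) h2)⟩
    rw [aeval_X] at h1
    exact h1.2.1
  rw [aeval_eq_sum_range]
  refine sum_mem fun i _ => ?_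
  rw [zsmul_eq_mul]
  exact mul_mem (intCast_mem O _) (pow_mem hX _)

/-- clearing denominators -/
lemma clear (r : ℚ[X]) : ∃ (n : ℤ) (f : ℤ[X]), n ≠ 0 ∧ f.map (Int.castRingHom ℚ) = (n : ℚ) • r := by
  obtain ⟨b, hb0, hb⟩ := IsLocalization.integerNormalization_spec (nonZeroDivisors ℤ) r
  refine ⟨b, IsLocalization.integerNormalization (nonZeroDivisors ℤ) r,
    nonZeroDivisors.ne_zero hb0, ?_⟩
  rw [Int.cast_smul_eq_zsmul, ← hb]
  rfl

/-- a good denominator -/
lemma exists_fin {h : ℤ[X]} (hh : h ≠ 0) : ∃ S : Finset ℕ, ∀ p : ℕ, p.Prime → p ∉ S →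
    ∃ n, ¬ (p : ℤ) ∣ h.coeff n := by
  refine ⟨(h.leadingCoeff).natAbs.primeFactors, fun p hp hpS => ⟨h.natDegree, fun hd => hpS ?_⟩⟩
  rw [Nat.mem_primeFactors]
  refine ⟨hp, ?_, ?_⟩
  · exact Int.natCast_dvd.1 hd
  · simpa using hh

variable {R L : Type} [Field R] [Algebra ℚ R] [Field L] [Algebra R L]

/-- `z` is integral at almost all `p` -/
def AI (x : R) (z : L) : Prop :=
  ∃ S : Finset ℕ, ∀ p : ℕ, p.Prime → p ∉ S → ∀ (N : Type) [Field N] (ι : L →+* N)
      (O : ValuationSubring N), GaussP p (ι (algebraMap R L x)) O → ι z ∈ O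

lemma ai_base (x : R) (hx : Transcendental ℚ x) (hR : IntermediateField.adjoin ℚ {x} = ⊤) (c : R) :
    AI x (algebraMap R L c) := by
  have hc : c ∈ IntermediateField.adjoin ℚ {x} := by
    rw [hR]
    trivial
  obtain ⟨r, s, hrs⟩ := (IntermediateField.mem_adjoin_simple_iff ℚ c).1 hc
  obtain ⟨n, f, hn, hf⟩ := clear r
  obtain ⟨m, g, hm, hg⟩ := clear s
  by_cases hs : aeval x s = 0
  · refine ⟨∅, fun p _ _ N _ ι O _ => ?_⟩
    rw [hrs, hs, div_zero, map_zero, map_zero]
    exact zero_mem O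
  have key : ∀ (q : ℚ[X]) (k : ℤ) (u : ℤ[X]), u.map (Int.castRingHom ℚ) = (k : ℚ) • q →
      aeval x u = (k : R) * aeval x q := by
    intro q k u hu
    have h1 : aeval x (u.map (Int.castRingHom ℚ)) = aeval x u := by
      rw [aeval_def, eval₂_map, aeval_def]
      congr 1
      exact RingHom.ext_int _ _
    rw [← h1, hu, map_smul, Algebra.smul_def]
    simp
  have hf' := key r n f hf
  have hg' := key s m g hg
  have hmR : (m : R) ≠ 0 := by
    have : CharZero R := algebraRat.charZero R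
    exact_mod_cast hm
  have hnR : (n : R) ≠ 0 := by
    have : CharZero R := algebraRat.charZero R
    exact_mod_cast hn
  have hgx : aeval x g ≠ 0 := by
    rw [hg']
    exact mul_ne_zero hmR hs
  have hh0 : C n * g ≠ 0 := by
    apply mul_ne_zero
    · simpa using hn
    · rintro rfl
      simp at hgx
  obtain ⟨S, hS⟩ := exists_fin hh0
  refine ⟨S, fun p hp hpS N _ ι O hO => ?_⟩
  have hu := hO.2 _ (hS p hp hpS)
  have hc' : c * aeval x (C n * g) = aeval x (C m * f) := by
    rw [map_mul, map_mul, hf', hg', hrs]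
    simp only [aeval_C]
    have e1 : algebraMap ℤ R n = n := rfl
    have e2 : algebraMap ℤ R m = m := rfl
    rw [e1, e2]
    field_simp
  have h2 : ι (algebraMap R L c) * aeval (ι (algebraMap R L x)) (C n * g) =
      aeval (ι (algebraMap R L x)) (C m * f) := by
    have h3 := congrArg (ι.comp (algebraMap R L)) hc'
    rw [map_mul, hom_aeval, hom_aeval] at h3
    exact h3
  have h3 : ι (algebraMap R L c) = aeval (ι (algebraMap R L x)) (C m * f) *
      (aeval (ι (algebraMap R L x)) (C n * g))⁻¹ := by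
    rw [← h2, mul_assoc, mul_inv_cancel₀ hu.1, mul_one]
  rw [h3]
  exact mul_mem (aeval_mem hp hO _) hu.2.2

lemma mem_of_root {N : Type} [Field N] {O : ValuationSubring N} {q : N[X]} (hq : q.Monic)
    (hc : ∀ n, q.coeff n ∈ O) {z : N} (hz : q.eval z = 0) : z ∈ O := by
  have hl : q ∈ lifts (algebraMap O N) := by
    rw [lifts_iff_coeff_lifts]
    intro n
    exact ⟨⟨q.coeff n, hc n⟩, rfl⟩
  obtain ⟨q', h1, _, h3⟩ := lifts_and_natDegree_eq_and_monic hl hq
  have hi : IsIntegral O z := ⟨q', h3, by rw [eval₂_eq_eval_map, h1, hz]⟩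
  obtain ⟨y, hy⟩ := IsIntegrallyClosed.isIntegral_iff.1 hi
  rw [← hy]
  exact y.2

lemma ai_all (x : R) (hx : Transcendental ℚ x) (hR : IntermediateField.adjoin ℚ {x} = ⊤)
    [FiniteDimensional R L] (z : L) : AI x z := by
  have hint : IsIntegral R z := Algebra.IsIntegral.isIntegral z
  choose S hS using fun c : R => ai_base (L := L) x hx hR c
  refine ⟨(Finset.range ((minpoly R z).natDegree + 1)).biUnion fun i => S ((minpoly R z).coeff i),
    fun p hp hpS N _ ι O hO => ?_⟩
  have h1 : ∀ i, ι (algebraMap R L ((minpoly R z).coeff i)) ∈ O := by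
    intro i
    by_cases hi : i ∈ Finset.range ((minpoly R z).natDegree + 1)
    · exact hS _ p hp (fun h => hpS (Finset.mem_biUnion.2 ⟨i, hi, h⟩)) N ι O hO
    · rw [coeff_eq_zero_of_natDegree_lt (by simpa using hi), map_zero, map_zero]
      exact zero_mem O
  refine mem_of_root (q := (minpoly R z).map (ι.comp (algebraMap R L)))
    ((minpoly.monic hint).map _) (fun n => ?_) ?_
  · rw [coeff_map]
    exact h1 n
  · rw [eval_map, ← hom_eval₂]
    have h2 : eval₂ (algebraMap R L) z (minpoly R z) = 0 := minpoly.aeval R z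
    rw [h2, map_zero]

theorem gauss : S_GAUSS := by
  intro R L _ _ _ _ x hx hR hfin hgal
  haveI := hfin
  haveI := hgal
  choose S hS using fun z : L => ai_all (L := L) x hx hR z
  classical
  have hex : ∀ γ : L ≃ₐ[R] L, ∃ z : L, γ ≠ 1 → γ z ≠ z := by
    intro γ
    by_cases h : γ = 1
    · exact ⟨0, fun h' => absurd h h'⟩
    · by_contra hn
      push Not at hn
      apply h
      ext z
      exact (hn z).2
  choose Z hZ using hex
  haveI : Fintype (L ≃ₐ[R] L) := Fintype.ofFinite _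
  refine ⟨Finset.univ.biUnion fun γ : L ≃ₐ[R] L => S (Z γ) ∪ S ((γ (Z γ) - Z γ)⁻¹),
    fun p hp hpS N _ ι O hO γ hγ => ?_⟩
  by_contra hne
  have h1 : p ∉ S (Z γ) := fun h => hpS (Finset.mem_biUnion.2 ⟨γ, Finset.mem_univ _,
    Finset.mem_union_left _ h⟩)
  have h2 : p ∉ S ((γ (Z γ) - Z γ)⁻¹) := fun h => hpS (Finset.mem_biUnion.2 ⟨γ, Finset.mem_univ _,
    Finset.mem_union_right _ h⟩)
  have h3 := hS (Z γ) p hp h1 N ι O hO
  have h4 := hS ((γ (Z γ) - Z γ)⁻¹) p hp h2 N ι O hO
  have h5 := hγ (Z γ) h3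
  have h6 : γ (Z γ) - Z γ ≠ 0 := sub_ne_zero.2 (hZ γ hne)
  have h7 : (ι (γ (Z γ)) - ι (Z γ)) * ι ((γ (Z γ) - Z γ)⁻¹) = 1 := by
    rw [← map_sub, ← map_mul, mul_inv_cancel₀ h6, map_one]
  rw [ValuationSubring.mem_nonunits_iff] at h5
  rw [← ValuationSubring.valuation_le_one_iff] at h4
  have h8 := congrArg O.valuation h7
  rw [map_mul, map_one] at h8
  have h9 : O.valuation (ι (γ (Z γ)) - ι (Z γ)) * O.valuation (ι ((γ (Z γ) - Z γ)⁻¹)) < 1 :=
    lt_of_le_of_lt (mul_le_of_le_one_right' h4) h5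
  rw [h8] at h9
  exact lt_irrefl _ h9

end Pool.Agent.Y166.PC
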